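import Pool.Agent.K4W.StmtsA

set_option autoImplicit false

namespace Pool.Agent.K4W.H92

open Pool.Agent.K4W

theorem card_mult {u g : ℕ} (hu : 1 ≤ u) (hg : g ∣ u) :
    g * ((Finset.range u).filter (fun m => g ∣ m)).card ≤ u := by
  obtain ⟨t, rfl⟩ := hg
  have hg0 : 0 < g := Nat.pos_of_ne_zero (by
    rintro rfl
    omega)
  have h1 : (Finset.range (g * t)).filter (fun m => g ∣ m) ⊆
      (Finset.range t).image (fun s => g * s) := by
    intro m hm
    rw [Finset.mem_filter, Finset.mem_range] at hm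
    obtain ⟨h2, s, rfl⟩ := hm
    rw [Finset.mem_image]
    exact ⟨s, Finset.mem_range.mpr (Nat.lt_of_mul_lt_mul_left h2), rfl⟩
  have h2 := (Finset.card_le_card h1).trans Finset.card_image_le
  rw [Finset.card_range] at h2
  exact Nat.mul_le_mul_left g h2

theorem gcd_sum {u : ℕ} (hu : 1 ≤ u) :
    ∑ m ∈ Finset.range u, Nat.gcd m u ≤ u * u.divisors.card := by
  have h1 : ∀ m ∈ Finset.range u, Nat.gcd m u ≤ ∑ g ∈ u.divisors, if g ∣ m then g else 0 := by
    intro m _
    have hmem : Nat.gcd m u ∈ u.divisors := by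
      rw [Nat.mem_divisors]
      exact ⟨Nat.gcd_dvd_right m u, by omega⟩
    have h2 := Finset.single_le_sum (f := fun g => if g ∣ m then g else 0)
      (fun g _ => Nat.zero_le _) hmem
    simp only [Nat.gcd_dvd_left, if_true] at h2
    exact h2
  refine (Finset.sum_le_sum h1).trans ?_
  rw [Finset.sum_comm]
  have h3 : ∀ g ∈ u.divisors, ∑ m ∈ Finset.range u, (if g ∣ m then g else 0) ≤ u := by
    intro g hg
    rw [← Finset.sum_filter, Finset.sum_const, smul_eq_mul, Nat.mul_comm]
    exact card_mult hu (Nat.dvd_of_mem_divisors hg)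
  have h4 := Finset.sum_le_card_nsmul _ _ _ h3
  rw [smul_eq_mul, Nat.mul_comm] at h4
  exact h4

theorem agc : AgcStmt := by
  intro u hu
  have h1 := gcd_sum hu
  exact_mod_cast h1

end Pool.Agent.K4W.H92
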